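import Pool.Agent.Helper23.MV.StL

set_option autoImplicit false

namespace Pool.Agent.Helper32.MV

open Finset ArithmeticFunction
open Pool.Agent.Helper23.MV

private lemma AZ_eq_AZ0 (z : ℝ) (n : ℕ) (hz : 0 < z) :
    AZ z n = ∑ d ∈ n.divisors, (moebius d : ℝ) * Real.posLog (z / d) := by
  unfold AZ
  rw [Finset.sum_filter]
  refine Finset.sum_congr rfl fun d hd => ?_
  have hd0 : (0 : ℝ) < d := by exact_mod_cast Nat.pos_of_mem_divisors hd
  split_ifs with h
  · rw [Real.posLog_eq_log]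
    rw [abs_of_pos (by positivity)]
    rw [le_div_iff₀ hd0]
    linarith
  · push Not at h
    rw [Real.posLog_eq_zero_iff _ |>.2, mul_zero]
    rw [abs_of_pos (by positivity), div_le_one hd0]
    exact h.le

private lemma AZ_small_AZ0 (z : ℝ) (n : ℕ) (hn : 1 ≤ n) (hnz : (n : ℝ) ≤ z) :
    AZ z n = (if n = 1 then Real.log z else 0) + Λ n := by
  unfold AZ
  have hz : 0 < z := lt_of_lt_of_le (by exact_mod_cast hn) hnz
  have hfil : n.divisors.filter (fun d : ℕ => (d : ℝ) ≤ z) = n.divisors := by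
    refine Finset.filter_true_of_mem fun d hd => ?_
    have : d ≤ n := Nat.divisor_le hd
    exact le_trans (by exact_mod_cast this) hnz
  rw [hfil]
  have h1 : ∀ d ∈ n.divisors, (moebius d : ℝ) * Real.log (z / d) =
      (moebius d : ℝ) * Real.log z - (moebius d : ℝ) * Real.log d := by
    intro d hd
    have hd0 : (0 : ℝ) < d := by exact_mod_cast Nat.pos_of_mem_divisors hd
    rw [Real.log_div hz.ne' hd0.ne']
    ring
  rw [Finset.sum_congr rfl h1, Finset.sum_sub_distrib, ← Finset.sum_mul]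
  have h2 : ∑ d ∈ n.divisors, (moebius d : ℝ) = if n = 1 then 1 else 0 := by
    have h := congrArg (fun f : ArithmeticFunction ℝ => f n)
      (coe_moebius_mul_coe_zeta (R := ℝ))
    simp only [coe_mul_zeta_apply, one_apply] at h
    rw [← h]
    simp [intCoe_apply]
  have h3 : ∑ d ∈ n.divisors, (moebius d : ℝ) * Real.log d = - Λ n := by
    exact ArithmeticFunction.sum_moebius_mul_log_eq
  rw [h2, h3]
  split_ifs <;> ring

private lemma sd_lam_AZ0 (z₁ z₂ : ℝ) (h1 : 0 < z₁) (h2 : 0 < z₂) (n : ℕ) :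
    sd (lam z₁ z₂) n = (AZ z₂ n - AZ z₁ n) / Real.log (z₂ / z₁) := by
  rw [AZ_eq_AZ0 z₂ n h2, AZ_eq_AZ0 z₁ n h1, ← Finset.sum_sub_distrib, Finset.sum_div]
  unfold sd lam
  refine Finset.sum_congr rfl fun d _ => ?_
  ring

theorem hAz0 : StAz2 → StAz0 := by
  intro hAz
  refine ⟨?_, ?_⟩
  · intro z₁ z₂ hz1 hz12
    have hz1' : 0 < z₁ := by linarith
    have hz2' : 0 < z₂ := by linarith
    have hq : 1 < z₂ / z₁ := by rwa [lt_div_iff₀ hz1', one_mul]
    have hlog : 0 < Real.log (z₂ / z₁) := Real.log_pos hq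
    have hsmall : ∀ n : ℕ, 1 ≤ n → (n : ℝ) ≤ z₁ →
        sd (lam z₁ z₂) n = if n = 1 then 1 else 0 := by
      intro n hn hnz
      rw [sd_lam_AZ0 z₁ z₂ hz1' hz2' n, AZ_small_AZ0 z₁ n hn hnz,
        AZ_small_AZ0 z₂ n hn (hnz.trans hz12.le)]
      split_ifs with h
      · rw [div_eq_one_iff_eq hlog.ne', Real.log_div hz2'.ne' hz1'.ne']
        ring
      · simp
    refine ⟨?_, ?_, ?_, ?_, ?_⟩
    · rw [hsmall 1 le_rfl (by simpa using hz1)]
      simp
    · intro n hn hnz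
      rw [hsmall n hn.le hnz, if_neg (by omega)]
    · intro d
      rcases Nat.eq_zero_or_pos d with rfl | hd
      · simp [lam]
      have hd0 : (0 : ℝ) < d := by exact_mod_cast hd
      have hmono : Real.posLog (z₁ / d) ≤ Real.posLog (z₂ / d) := by
        refine Real.posLog_le_posLog (by positivity) ?_
        gcongr
      have hsub : Real.posLog (z₂ / d) ≤ Real.log (z₂ / z₁) + Real.posLog (z₁ / d) := by
        have e : z₂ / d = z₂ / z₁ * (z₁ / d) := by
          field_simp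
        rw [e]
        refine Real.posLog_mul.trans ?_
        rw [Real.posLog_eq_log (x := z₂ / z₁)]
        rw [abs_of_pos (by positivity)]
        exact hq.le
      have hmu : |(moebius d : ℝ)| ≤ 1 := by
        have := ArithmeticFunction.abs_moebius_le_one (n := d)
        exact_mod_cast this
      unfold lam
      rw [abs_div, abs_mul, abs_of_pos hlog, div_le_one hlog, abs_of_nonneg (sub_nonneg.2 hmono)]
      calc |(moebius d : ℝ)| * (Real.posLog (z₂ / d) - Real.posLog (z₁ / d))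
          ≤ 1 * (Real.posLog (z₂ / d) - Real.posLog (z₁ / d)) :=
            mul_le_mul_of_nonneg_right hmu (sub_nonneg.2 hmono)
        _ ≤ Real.log (z₂ / z₁) := by linarith
    · intro d hd
      have hd0 : (0 : ℝ) < d := lt_trans hz2' hd
      have e1 : Real.posLog (z₁ / d) = 0 := by
        rw [Real.posLog_eq_zero_iff, abs_of_pos (by positivity), div_le_one hd0]
        linarith
      have e2 : Real.posLog (z₂ / d) = 0 := by
        rw [Real.posLog_eq_zero_iff, abs_of_pos (by positivity), div_le_one hd0]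
        exact hd.le
      unfold lam
      rw [e1, e2]
      simp
    · simp [lam]
  · obtain ⟨C, hC1, hC⟩ := hAz
    refine ⟨122 * (C * Real.exp 2), ?_, ?_⟩
    · have : (1 : ℝ) ≤ Real.exp 2 := Real.one_le_exp (by norm_num)
      nlinarith
    intro κ X hκ hX h3
    have hX0 : 0 < X := by linarith
    set ℓ : ℝ := Real.log (X ^ κ) with hℓ
    have hXκ : 0 < X ^ κ := by positivity
    have hℓ0 : 0 < ℓ := Real.log_pos (by linarith)
    have hpow : ∀ a : ℝ, X ^ (a * κ) = (X ^ κ) ^ a := by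
      intro a
      rw [mul_comm, Real.rpow_mul hX0.le]
    have hlogp : ∀ a : ℝ, Real.log (X ^ (a * κ)) = a * ℓ := by
      intro a
      rw [hpow, Real.log_rpow hXκ]
    have hge : ∀ a : ℝ, 1 ≤ a → 3 ≤ X ^ (a * κ) := by
      intro a ha
      rw [hpow]
      calc (3 : ℝ) ≤ X ^ κ := h3
        _ = (X ^ κ) ^ (1 : ℝ) := (Real.rpow_one _).symm
        _ ≤ (X ^ κ) ^ a := Real.rpow_le_rpow_of_exponent_le (by linarith) ha
    have hsq : ∀ a b : ℝ, (X ^ (a * κ)) ^ b = X ^ (a * b * κ) := by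
      intro a b
      rw [← Real.rpow_mul hX0.le]
      congr 1
      ring
    have hA1 := hC (X ^ (5 * κ)) (X ^ (10 * κ)) 2 (hge 5 (by norm_num)) (by norm_num)
      (by rw [hsq]; norm_num)
    have hA2 := hC (X ^ (6 * κ)) (X ^ (10 * κ)) 2 (hge 6 (by norm_num)) (by norm_num)
      (by
        rw [hsq]
        refine Real.rpow_le_rpow_of_exponent_le hX ?_
        nlinarith)
    rw [hlogp] at hA1 hA2
    have hdiv : Real.log (X ^ (6 * κ) / X ^ (5 * κ)) = ℓ := by
      rw [Real.log_div (by positivity) (by positivity), hlogp, hlogp]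
      ring
    have hterm : ∀ n ∈ Icc 1 ⌊X ^ (10 * κ)⌋₊,
        sd (lam (X ^ (5 * κ)) (X ^ (6 * κ))) n ^ 2 / n ≤
          2 / ℓ ^ 2 * (AZ (X ^ (5 * κ)) n ^ 2 / n) + 2 / ℓ ^ 2 * (AZ (X ^ (6 * κ)) n ^ 2 / n) := by
      intro n hn
      have hn0 : (0 : ℝ) < n := by
        have := (Finset.mem_Icc.1 hn).1
        exact_mod_cast this
      rw [sd_lam_AZ0 _ _ (by positivity) (by positivity), hdiv]
      have e : 2 / ℓ ^ 2 * (AZ (X ^ (5 * κ)) n ^ 2 / n) + 2 / ℓ ^ 2 * (AZ (X ^ (6 * κ)) n ^ 2 / n) -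
          ((AZ (X ^ (6 * κ)) n - AZ (X ^ (5 * κ)) n) / ℓ) ^ 2 / n =
          ((AZ (X ^ (6 * κ)) n + AZ (X ^ (5 * κ)) n) / ℓ) ^ 2 / n := by
        field_simp
        ring
      have e2 : 0 ≤ ((AZ (X ^ (6 * κ)) n + AZ (X ^ (5 * κ)) n) / ℓ) ^ 2 / n := by positivity
      linarith
    calc ∑ n ∈ Icc 1 ⌊X ^ (10 * κ)⌋₊, sd (lam (X ^ (5 * κ)) (X ^ (6 * κ))) n ^ 2 / n
        ≤ ∑ n ∈ Icc 1 ⌊X ^ (10 * κ)⌋₊, (2 / ℓ ^ 2 * (AZ (X ^ (5 * κ)) n ^ 2 / n) +
            2 / ℓ ^ 2 * (AZ (X ^ (6 * κ)) n ^ 2 / n)) := Finset.sum_le_sum hterm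
      _ = 2 / ℓ ^ 2 * (∑ n ∈ Icc 1 ⌊X ^ (10 * κ)⌋₊, AZ (X ^ (5 * κ)) n ^ 2 / n) +
            2 / ℓ ^ 2 * (∑ n ∈ Icc 1 ⌊X ^ (10 * κ)⌋₊, AZ (X ^ (6 * κ)) n ^ 2 / n) := by
          rw [Finset.sum_add_distrib, Finset.mul_sum, Finset.mul_sum]
      _ ≤ 2 / ℓ ^ 2 * (C * Real.exp 2 * (5 * ℓ) ^ 2) + 2 / ℓ ^ 2 * (C * Real.exp 2 * (6 * ℓ) ^ 2) := by
          gcongr
      _ = 122 * (C * Real.exp 2) := by
          field_simp
          ring

end Pool.Agent.Helper32.MV
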