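import Pool.Agent.Helper23.MV.StP

set_option autoImplicit false

namespace Pool.Agent.Helper32.MV

open Finset ArithmeticFunction MeasureTheory
open Pool.Agent.Helper23.MV
open Pool.Agent.Helper15.AB (IsW)
open Pool.Agent.Helper23.GK (GA)
open Pool.Agent.Helper2.MR (ch)

private lemma wdiff_G0 {w : ℝ → ℝ} (hw : IsW w) : Differentiable ℝ w :=
  hw.smooth.differentiable (by norm_num)

private lemma wdiff2_G0 {w : ℝ → ℝ} (hw : IsW w) : Differentiable ℝ (deriv w) :=
  (hw.smooth.of_le (by norm_num : (2 : WithTop ℕ∞) ≤ 4)).differentiable_deriv_two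

private lemma wcont3_G0 {w : ℝ → ℝ} (hw : IsW w) : Continuous (deriv (deriv w)) := by
  have h : ContDiff ℝ 1 (deriv w) := by
    have h2 : ContDiff ℝ (1 + 1) w := hw.smooth.of_le (by norm_num)
    exact (contDiff_succ_iff_deriv.1 h2).2.2
  exact h.continuous_deriv (by norm_num)

private lemma w_le_G0 {w : ℝ → ℝ} (hw : IsW w) : ∀ t ≤ (0 : ℝ), w t = 0 := by
  have h1 : Set.EqOn w 0 (Set.Iio 0) := fun t ht =>
    hw.supp t (fun h => absurd h.1 (not_le.2 ht))
  have h2 := h1.closure (wdiff_G0 hw).continuous continuous_zero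
  rw [closure_Iio] at h2
  exact fun t ht => h2 ht

private lemma w_ge_G0 {w : ℝ → ℝ} (hw : IsW w) : ∀ t, (1 : ℝ) ≤ t → w t = 0 := by
  have h1 : Set.EqOn w 0 (Set.Ioi 1) := fun t ht =>
    hw.supp t (fun h => absurd h.2 (not_le.2 ht))
  have h2 := h1.closure (wdiff_G0 hw).continuous continuous_zero
  rw [closure_Ioi] at h2
  exact fun t ht => h2 ht

private lemma dw0_G0 {w : ℝ → ℝ} (hw : IsW w) : deriv w 0 = 0 := by
  have h1 : Set.EqOn (deriv w) 0 (Set.Iio 0) := by
    intro t ht
    have : w =ᶠ[nhds t] fun _ => 0 := by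
      filter_upwards [Iio_mem_nhds ht] with s hs
      exact w_le_G0 hw s (le_of_lt hs)
    rw [this.deriv_eq]
    simp
  have h2 := h1.closure (wdiff2_G0 hw).continuous continuous_zero
  rw [closure_Iio] at h2
  exact h2 (Set.mem_Iic.2 le_rfl)

private lemma dw1_G0 {w : ℝ → ℝ} (hw : IsW w) : deriv w 1 = 0 := by
  have h1 : Set.EqOn (deriv w) 0 (Set.Ioi 1) := by
    intro t ht
    have : w =ᶠ[nhds t] fun _ => 0 := by
      filter_upwards [Ioi_mem_nhds ht] with s hs
      exact w_ge_G0 hw s (le_of_lt hs)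
    rw [this.deriv_eq]
    simp
  have h2 := h1.closure (wdiff2_G0 hw).continuous continuous_zero
  rw [closure_Ioi] at h2
  exact h2 (Set.mem_Ici.2 le_rfl)

private lemma ftc_G0 {w : ℝ → ℝ} (hw : IsW w) (b x y : ℝ) :
    ∫ u in x..y, (deriv (deriv w) u - 2 * deriv w u + w u) * (u - b) * Real.exp (-u) =
      ((deriv w y - w y) * Real.exp (-y) * (y - b) - w y * Real.exp (-y)) -
      ((deriv w x - w x) * Real.exp (-x) * (x - b) - w x * Real.exp (-x)) := by
  have hd : ∀ u : ℝ, HasDerivAt
      (fun u => (deriv w u - w u) * Real.exp (-u) * (u - b) - w u * Real.exp (-u))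
      ((deriv (deriv w) u - 2 * deriv w u + w u) * (u - b) * Real.exp (-u)) u := by
    intro u
    have h1 := (wdiff_G0 hw u).hasDerivAt
    have h2 := (wdiff2_G0 hw u).hasDerivAt
    have h3 : HasDerivAt (fun u : ℝ => Real.exp (-u)) (-Real.exp (-u)) u := by
      have h := (hasDerivAt_neg u).exp
      simpa using h
    have h4 : HasDerivAt (fun u : ℝ => u - b) 1 u := (hasDerivAt_id u).sub_const b
    have h5 := (((h2.sub h1).mul h3).mul h4).sub (h1.mul h3)
    refine h5.congr_deriv ?_
    simp only [Pi.mul_apply, Pi.sub_apply]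
    ring
  refine intervalIntegral.integral_eq_sub_of_hasDerivAt (fun u _ => hd u) ?_
  refine Continuous.intervalIntegrable ?_ _ _
  have c1 := wcont3_G0 hw
  have c2 := (wdiff2_G0 hw).continuous
  have c3 := (wdiff_G0 hw).continuous
  fun_prop

private lemma key_G0 {w : ℝ → ℝ} (hw : IsW w) (b : ℝ) :
    ∫ u in (0 : ℝ)..1, (deriv (deriv w) u - 2 * deriv w u + w u) * max 0 (u - b) * Real.exp (-u) =
      w b * Real.exp (-b) := by
  have z0 := w_le_G0 hw 0 le_rfl
  have z1 := w_ge_G0 hw 1 le_rfl
  have y0 := dw0_G0 hw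
  have y1 := dw1_G0 hw
  have c1 := wcont3_G0 hw
  have c2 := (wdiff2_G0 hw).continuous
  have c3 := (wdiff_G0 hw).continuous
  rcases le_or_gt b 0 with hb | hb
  · rw [w_le_G0 hw b hb, zero_mul]
    have : ∫ u in (0 : ℝ)..1, (deriv (deriv w) u - 2 * deriv w u + w u) * max 0 (u - b) *
        Real.exp (-u) = ∫ u in (0 : ℝ)..1, (deriv (deriv w) u - 2 * deriv w u + w u) * (u - b) *
        Real.exp (-u) := by
      refine intervalIntegral.integral_congr fun u hu => ?_
      rw [Set.uIcc_of_le zero_le_one] at hu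
      rw [max_eq_right (by linarith [hu.1])]
    rw [this, ftc_G0 hw, z0, z1, y0, y1]
    ring
  rcases le_or_gt 1 b with hb1 | hb1
  · rw [w_ge_G0 hw b hb1, zero_mul]
    have : ∫ u in (0 : ℝ)..1, (deriv (deriv w) u - 2 * deriv w u + w u) * max 0 (u - b) *
        Real.exp (-u) = ∫ u in (0 : ℝ)..1, (0 : ℝ) := by
      refine intervalIntegral.integral_congr fun u hu => ?_
      rw [Set.uIcc_of_le zero_le_one] at hu
      rw [max_eq_left (by linarith [hu.2])]
      ring
    rw [this]
    simp
  · have hi : ∀ x y : ℝ, IntervalIntegrable (fun u =>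
        (deriv (deriv w) u - 2 * deriv w u + w u) * max 0 (u - b) * Real.exp (-u)) volume x y := by
      intro x y
      refine Continuous.intervalIntegrable ?_ _ _
      fun_prop
    rw [← intervalIntegral.integral_add_adjacent_intervals (hi 0 b) (hi b 1)]
    have e1 : ∫ u in (0 : ℝ)..b, (deriv (deriv w) u - 2 * deriv w u + w u) * max 0 (u - b) *
        Real.exp (-u) = ∫ u in (0 : ℝ)..b, (0 : ℝ) := by
      refine intervalIntegral.integral_congr fun u hu => ?_
      rw [Set.uIcc_of_le hb.le] at hu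
      rw [max_eq_left (by linarith [hu.2])]
      ring
    have e2 : ∫ u in b..(1 : ℝ), (deriv (deriv w) u - 2 * deriv w u + w u) * max 0 (u - b) *
        Real.exp (-u) = ∫ u in b..(1 : ℝ), (deriv (deriv w) u - 2 * deriv w u + w u) * (u - b) *
        Real.exp (-u) := by
      refine intervalIntegral.integral_congr fun u hu => ?_
      rw [Set.uIcc_of_le hb1.le] at hu
      rw [max_eq_right (by linarith [hu.1])]
    rw [e1, e2, ftc_G0 hw, z1, y1]
    simp

theorem hG0 : StG0 := by
  intro w hw c X t hX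
  have hX0 : (0 : ℝ) < X := by exact_mod_cast hX
  have c1 := wcont3_G0 hw
  have c2 := (wdiff2_G0 hw).continuous
  have c3 := (wdiff_G0 hw).continuous
  set A : ℕ → ℂ := fun m => ((Λ m : ℝ) : ℂ) * c.ev m * ch t m with hA
  -- `Ps` as a sum over a fixed range
  have hPs : ∀ u ∈ Set.Icc (0 : ℝ) 1, Ps c t (X * Real.exp u) =
      ∑ m ∈ Icc 1 (3 * X), A m * ((max 0 (u - Real.log (m / X)) : ℝ) : ℂ) := by
    intro u hu
    unfold Ps
    have hexp : (X : ℝ) * Real.exp u ≤ 3 * X := by
      have : Real.exp u ≤ Real.exp 1 := Real.exp_le_exp.2 hu.2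
      have h3 : Real.exp 1 < 3 := Real.exp_one_lt_three
      nlinarith
    have hsub : Ioc 0 ⌊(X : ℝ) * Real.exp u⌋₊ ⊆ Icc 1 (3 * X) := by
      intro m hm
      rw [Finset.mem_Ioc] at hm
      rw [Finset.mem_Icc]
      refine ⟨hm.1, ?_⟩
      have h1 : (m : ℝ) ≤ X * Real.exp u := (Nat.le_floor_iff (by positivity)).1 hm.2
      have h2 : (m : ℝ) ≤ ((3 * X : ℕ) : ℝ) := by
        push_cast
        exact h1.trans hexp
      exact_mod_cast h2
    rw [← Finset.sum_subset hsub]
    · refine Finset.sum_congr rfl fun m hm => ?_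
      rw [Finset.mem_Ioc] at hm
      have hm0 : (0 : ℝ) < m := by exact_mod_cast hm.1
      have h1 : (m : ℝ) ≤ X * Real.exp u := (Nat.le_floor_iff (by positivity)).1 hm.2
      have e : Real.log (X * Real.exp u / m) = u - Real.log (m / X) := by
        rw [Real.log_div (by positivity) hm0.ne', Real.log_mul hX0.ne' (Real.exp_pos u).ne',
          Real.log_exp, Real.log_div hm0.ne' hX0.ne']
        ring
      have e2 : 0 ≤ u - Real.log (m / X) := by
        rw [← e]
        refine Real.log_nonneg ?_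
        rw [le_div_iff₀ hm0]
        linarith
      rw [e, max_eq_right e2]
    · intro m hm hm2
      rw [Finset.mem_Icc] at hm
      rw [Finset.mem_Ioc, not_and, not_le] at hm2
      have hm0 : (0 : ℝ) < m := by exact_mod_cast hm.1
      have h1 : (X : ℝ) * Real.exp u < m := (Nat.floor_lt (by positivity)).1 (hm2 hm.1)
      have e2 : u - Real.log (m / X) ≤ 0 := by
        have : u ≤ Real.log (m / X) := by
          rw [Real.le_log_iff_exp_le (by positivity), le_div_iff₀ hX0]
          linarith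
        linarith
      rw [max_eq_left e2]
      simp
  have hint : ∫ u in (0 : ℝ)..1, ((deriv (deriv w) u - 2 * deriv w u + w u : ℝ) : ℂ) *
      Ps c t (X * Real.exp u) / ((X * Real.exp u : ℝ) : ℂ) =
      ∫ u in (0 : ℝ)..1, ∑ m ∈ Icc 1 (3 * X), A m / X *
        (((deriv (deriv w) u - 2 * deriv w u + w u) * max 0 (u - Real.log (m / X)) *
          Real.exp (-u) : ℝ) : ℂ) := by
    refine intervalIntegral.integral_congr fun u hu => ?_
    rw [Set.uIcc_of_le zero_le_one] at hu
    rw [hPs u hu, Finset.mul_sum, Finset.sum_div]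
    refine Finset.sum_congr rfl fun m _ => ?_
    rw [Real.exp_neg]
    push_cast
    have hX' : (X : ℂ) ≠ 0 := by exact_mod_cast hX0.ne'
    have hE : (Complex.exp u) ≠ 0 := Complex.exp_ne_zero _
    field_simp
  rw [hint, intervalIntegral.integral_finsetSum]
  · unfold GA
    refine Finset.sum_congr rfl fun m hm => ?_
    rw [Finset.mem_Icc] at hm
    have hm0 : (0 : ℝ) < m := by exact_mod_cast hm.1
    rw [intervalIntegral.integral_const_mul, intervalIntegral.integral_ofReal, key_G0 hw]
    have e : Real.exp (-Real.log (m / X)) = X / m := by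
      rw [← Real.log_inv, Real.exp_log (by positivity), inv_div]
    rw [e, hA]
    unfold PCh.ev
    push_cast
    have hX' : (X : ℂ) ≠ 0 := by exact_mod_cast hX0.ne'
    have hm' : (m : ℂ) ≠ 0 := by exact_mod_cast hm0.ne'
    field_simp
  · intro m _
    refine Continuous.intervalIntegrable ?_ _ _
    fun_prop

end Pool.Agent.Helper32.MV
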